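import Pool.Agent.helper24.SK.Spec

set_option autoImplicit false

namespace Pool.Agent.SK

open Finset ArithmeticFunction MeasureTheory
open Pool.Agent.CH (nit DPb Win Tset ph)
open Pool.Agent.EC (tri vN fN XN TL AdT)
open Pool.Agent.helper85.BVP (tau)
open GD (ks)

private lemma FGB_large (k : ℕ) : ∃ N₀ : ℕ, ∀ N : ℕ, N₀ ≤ N → (2 : ℝ) ≤ N ∧ 3 ≤ Real.log N ∧
    16 * Real.log N ^ k ≤ N ∧ 12 * Real.log N ≤ (N : ℝ) ^ (1 / 100 : ℝ) := by
  have h1 : ∀ᶠ x : ℝ in Filter.atTop, 3 ≤ Real.log x := Real.tendsto_log_atTop.eventually_ge_atTop 3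
  have h2 : ∀ᶠ x : ℝ in Filter.atTop, 16 * Real.log x ^ k ≤ x := by
    have h := (Real.isLittleO_pow_log_id_atTop (n := k)).bound (c := 1 / 16) (by norm_num)
    filter_upwards [h, Filter.eventually_ge_atTop 1] with x hx hx1
    rw [Real.norm_eq_abs, Real.norm_eq_abs, id, abs_of_pos (by linarith : (0 : ℝ) < x)] at hx
    have := le_abs_self (Real.log x ^ k)
    linarith
  have h3 : ∀ᶠ x : ℝ in Filter.atTop, 12 * Real.log x ≤ x ^ (1 / 100 : ℝ) := by
    have h := (isLittleO_log_rpow_atTop (show (0 : ℝ) < 1 / 100 by norm_num)).bound (c := 1 / 12)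
      (by norm_num)
    filter_upwards [h, Filter.eventually_ge_atTop 1] with x hx hx1
    rw [Real.norm_eq_abs, Real.norm_eq_abs, abs_of_nonneg (Real.rpow_nonneg (by linarith) _)] at hx
    have := le_abs_self (Real.log x)
    linarith
  have h4 : ∀ᶠ x : ℝ in Filter.atTop, (2 : ℝ) ≤ x := Filter.eventually_ge_atTop 2
  have h := tendsto_natCast_atTop_atTop (R := ℝ) |>.eventually (h4.and (h1.and (h2.and h3)))
  rw [Filter.eventually_atTop] at h
  obtain ⟨N₀, hN₀⟩ := h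
  exact ⟨N₀, fun N hN => hN₀ N hN⟩

private lemma FGB_int (hTHB : THB_stmt) (δ s u : ℝ) (hδ : 0 < δ) (hs : 0 < s) :
    Integrable fun t : ℝ => ((Real.exp (-(s ^ 2 * t ^ 2 / 2)) : ℝ) : ℂ) * Th δ t *
      Complex.exp (((t * u : ℝ) : ℂ) * Complex.I) := by
  obtain ⟨hb, _, _, hcont⟩ := hTHB δ hδ
  have hg : Integrable fun t : ℝ => Real.exp (-(s ^ 2 / 2) * t ^ 2) * δ :=
    (integrable_exp_neg_mul_sq (by positivity)).mul_const δ
  apply hg.mono'
  · apply Continuous.aestronglyMeasurable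
    fun_prop
  · refine Filter.Eventually.of_forall fun t => ?_
    rw [norm_mul, norm_mul, Complex.norm_exp_ofReal_mul_I, mul_one, Complex.norm_real,
      Real.norm_eq_abs, abs_of_pos (Real.exp_pos _)]
    have e : -(s ^ 2 * t ^ 2 / 2) = -(s ^ 2 / 2) * t ^ 2 := by ring
    rw [e]
    exact mul_le_mul_of_nonneg_left (hb t) (Real.exp_pos _).le

/-- the multiplier -/
private noncomputable def FGB_m (δ δ' c s t : ℝ) : ℂ :=
  ((Real.exp (-(s ^ 2 * t ^ 2 / 2)) : ℝ) : ℂ) * (Th δ t - (c : ℂ) * Th δ' t)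

private lemma FGB_rep (hTHB : THB_stmt) (hTRC : TRC_stmt) (v δ δ' c s y : ℝ) (hδ : 0 < δ)
    (hδ' : 0 < δ') (hs : 0 < s) :
    Integrable (fun t : ℝ => FGB_m δ δ' c s t * Complex.exp (((t * (y - v) : ℝ) : ℂ) * Complex.I)) ∧
    ((trc v δ s y - c * trc v δ' s y : ℝ) : ℂ) = 1 / (2 * Real.pi) *
      ∫ t : ℝ, FGB_m δ δ' c s t * Complex.exp (((t * (y - v) : ℝ) : ℂ) * Complex.I) := by
  have i1 := FGB_int hTHB δ s (y - v) hδ hs
  have i2 := FGB_int hTHB δ' s (y - v) hδ' hs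
  have e : (fun t : ℝ => FGB_m δ δ' c s t * Complex.exp (((t * (y - v) : ℝ) : ℂ) * Complex.I)) =
      fun t : ℝ => ((Real.exp (-(s ^ 2 * t ^ 2 / 2)) : ℝ) : ℂ) * Th δ t *
      Complex.exp (((t * (y - v) : ℝ) : ℂ) * Complex.I) -
      (c : ℂ) * (((Real.exp (-(s ^ 2 * t ^ 2 / 2)) : ℝ) : ℂ) * Th δ' t *
      Complex.exp (((t * (y - v) : ℝ) : ℂ) * Complex.I)) := by
    funext t
    unfold FGB_m
    ring
  constructor
  · rw [e]
    exact i1.sub (i2.const_mul _)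
  · rw [e, integral_sub i1 (i2.const_mul _), integral_const_mul]
    have h1 := (hTRC v δ s y hδ hs).2.2
    have h2 := (hTRC v δ' s y hδ' hs).2.2
    push_cast
    rw [h1, h2]
    push_cast
    ring

private lemma FGB_norm (hTHB : THB_stmt) (hTRC : TRC_stmt) (v δ δ' c s : ℝ) (hδ : 0 < δ)
    (hδ' : 0 < δ') (hs : 0 < s) (ι : Type) (S : Finset ι) (x : ι → ℕ) (f : ι → ℂ) :
    ‖∑ w ∈ S, f w * ((trc v δ s (Real.log (x w)) - c * trc v δ' s (Real.log (x w)) : ℝ) : ℂ)‖ ≤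
      1 / (2 * Real.pi) * ∫ t : ℝ, ‖FGB_m δ δ' c s t‖ * ‖∑ w ∈ S, f w * nit t (x w : ℝ)‖ := by
  have hr : ∀ w ∈ S, f w * ((trc v δ s (Real.log (x w)) - c * trc v δ' s (Real.log (x w)) : ℝ) : ℂ) =
      1 / (2 * Real.pi) * ∫ t : ℝ, f w * (FGB_m δ δ' c s t *
        Complex.exp (((t * (Real.log (x w) - v) : ℝ) : ℂ) * Complex.I)) := by
    intro w _
    rw [(FGB_rep hTHB hTRC v δ δ' c s (Real.log (x w)) hδ hδ' hs).2, integral_const_mul]
    ring
  rw [Finset.sum_congr rfl hr, ← Finset.mul_sum, ← integral_finsetSum]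
  · rw [norm_mul]
    have e1 : ‖(1 / (2 * Real.pi) : ℂ)‖ = 1 / (2 * Real.pi) := by
      rw [norm_div, norm_one, norm_mul, Complex.norm_real, Real.norm_eq_abs, abs_of_pos Real.pi_pos,
        Complex.norm_ofNat]
    rw [e1]
    apply mul_le_mul_of_nonneg_left _ (by positivity)
    refine (norm_integral_le_integral_norm _).trans (le_of_eq ?_)
    congr 1
    funext t
    have e2 : ∑ w ∈ S, f w * (FGB_m δ δ' c s t *
        Complex.exp (((t * (Real.log (x w) - v) : ℝ) : ℂ) * Complex.I)) =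
        FGB_m δ δ' c s t * Complex.exp (((-(t * v) : ℝ) : ℂ) * Complex.I) *
          ∑ w ∈ S, f w * nit t (x w : ℝ) := by
      rw [Finset.mul_sum]
      refine Finset.sum_congr rfl fun w _ => ?_
      have e3 : Complex.exp (((t * (Real.log (x w) - v) : ℝ) : ℂ) * Complex.I) =
          Complex.exp (((-(t * v) : ℝ) : ℂ) * Complex.I) * nit t (x w : ℝ) := by
        unfold nit
        rw [← Complex.exp_add]
        congr 1
        push_cast
        ring
      rw [e3]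
      ring
    rw [e2, norm_mul, norm_mul, Complex.norm_exp_ofReal_mul_I, mul_one]
  · intro w _
    exact ((FGB_rep hTHB hTRC v δ δ' c s (Real.log (x w)) hδ hδ' hs).1).const_mul _

/-- powers of `N` -/
private lemma FGB_pow (N : ℝ) (hN : 2 ≤ N) (h12 : 12 * Real.log N ≤ N ^ (1 / 100 : ℝ)) :
    0 < N ^ (-(201 / 200) : ℝ) ∧ N ^ (-(201 / 200) : ℝ) * N = N ^ (-(1 / 200) : ℝ) ∧
    N ^ (-(201 / 200) : ℝ) ≤ 1 / N ∧ 1 / N ^ (-(201 / 200) : ℝ) ≤ N ^ 2 ∧
    (N ^ (-(201 / 200) : ℝ)) ^ 2 * (N ^ (1 + 2 * (1 / 200) : ℝ)) ^ 2 = N ^ (1 / 100 : ℝ) ∧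
    (1 / N) ^ 2 / (4 * (N ^ (-(201 / 200) : ℝ)) ^ 2) = N ^ (1 / 100 : ℝ) / 4 ∧
    Real.exp (-(N ^ (1 / 100 : ℝ) / 4)) ≤ 1 / N ^ 3 := by
  have hN0 : 0 < N := by linarith
  have hN1 : 1 ≤ N := by linarith
  have hs0 : 0 < N ^ (-(201 / 200) : ℝ) := Real.rpow_pos_of_pos hN0 _
  have hinv : 1 / N = N ^ (-1 : ℝ) := by rw [Real.rpow_neg_one, one_div]
  refine ⟨hs0, ?_, ?_, ?_, ?_, ?_, ?_⟩
  · nth_rw 2 [← Real.rpow_one N]
    rw [← Real.rpow_add hN0]
    norm_num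
  · rw [hinv]
    exact Real.rpow_le_rpow_of_exponent_le hN1 (by norm_num)
  · rw [Real.rpow_neg hN0.le, one_div, inv_inv, ← Real.rpow_natCast]
    exact Real.rpow_le_rpow_of_exponent_le hN1 (by norm_num)
  · rw [← mul_pow, ← Real.rpow_add hN0, ← Real.rpow_natCast, ← Real.rpow_mul hN0.le]
    norm_num
  · have e : (1 / N) ^ 2 = N ^ (-2 : ℝ) := by
      rw [hinv, ← Real.rpow_natCast, ← Real.rpow_mul hN0.le]
      norm_num
    have e2 : (N ^ (-(201 / 200) : ℝ)) ^ 2 = N ^ (-(201 / 100) : ℝ) := by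
      rw [← Real.rpow_natCast, ← Real.rpow_mul hN0.le]
      norm_num
    rw [e, e2, mul_comm, ← div_div, ← Real.rpow_sub hN0]
    norm_num
  · have h3 : 1 / N ^ 3 = Real.exp (-(3 * Real.log N)) := by
      rw [Real.exp_neg, one_div]
      congr 1
      rw [mul_comm, Real.exp_mul, Real.exp_log hN0]
      norm_num
    rw [h3]
    apply Real.exp_le_exp.2
    linarith

private lemma FGB_err (hTRB : TRB_stmt) (hTRC : TRC_stmt) (A B N : ℕ) (hN : (2 : ℝ) ≤ N)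
    (hL : 3 ≤ Real.log N) (h16 : 16 * Real.log N ^ (2 * B + A) ≤ N)
    (h12 : 12 * Real.log N ≤ (N : ℝ) ^ (1 / 100 : ℝ)) (v y : ℝ) :
    |g0 B N v y - (trc v (1 / (N : ℝ)) ((N : ℝ) ^ (-(201 / 200) : ℝ)) y -
      Real.log N ^ B / N * trc v (1 / Real.log N ^ B) ((N : ℝ) ^ (-(201 / 200) : ℝ)) y)| ≤
      (if |y - v| ≤ 2 / N then (N : ℝ) ^ (-(1 / 200) : ℝ) else 0) + 1 / (4 * (N * Real.log N ^ A)) := by
  obtain ⟨hs0, hsN, hs1, hs2, hs3, hs4, hE⟩ := FGB_pow N hN h12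
  set s := (N : ℝ) ^ (-(201 / 200) : ℝ) with hs
  set L := Real.log N with hLd
  have hN0 : (0 : ℝ) < N := by linarith
  have hL1 : 1 ≤ L := by linarith
  have hL0 : 0 < L := by linarith
  have hδ : 0 < 1 / (N : ℝ) := by positivity
  have hδ' : 0 < 1 / L ^ B := by positivity
  have hLA : L ^ A ≤ L ^ (2 * B + A) := pow_le_pow_right₀ hL1 (by omega)
  have hLA0 : 0 < L ^ A := by positivity
  have w1 := (hTRC v (1 / L ^ B) s y hδ' hs0).1
  have w2 : L ^ B / N * |tr0 v (1 / L ^ B) y - trc v (1 / L ^ B) s y| ≤ 1 / (8 * (N * L ^ A)) := by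
    calc L ^ B / N * |tr0 v (1 / L ^ B) y - trc v (1 / L ^ B) s y| ≤ L ^ B / N * (s / (1 / L ^ B)) :=
          mul_le_mul_of_nonneg_left w1 (by positivity)
      _ ≤ L ^ B / N * ((1 / N) / (1 / L ^ B)) := by
          apply mul_le_mul_of_nonneg_left _ (by positivity)
          exact div_le_div_of_nonneg_right hs1 (by positivity)
      _ = L ^ (2 * B) / (N * N) := by
          rw [pow_mul']
          field_simp
      _ ≤ 1 / (8 * (N * L ^ A)) := by
          rw [div_le_div_iff₀ (by positivity) (by positivity)]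
          have h1 : L ^ (2 * B) * (8 * (N * L ^ A)) = (16 * L ^ (2 * B + A)) / 2 * N := by
            rw [pow_add]; ring
          rw [h1]
          nlinarith
  have n1 : |tr0 v (1 / (N : ℝ)) y - trc v (1 / (N : ℝ)) s y| ≤
      (if |y - v| ≤ 2 / N then (N : ℝ) ^ (-(1 / 200) : ℝ) else 0) + 1 / (8 * (N * L ^ A)) := by
    by_cases hy : |y - v| ≤ 2 / N
    · rw [if_pos hy]
      have h1 := (hTRC v (1 / (N : ℝ)) s y hδ hs0).1
      have h2 : s / (1 / (N : ℝ)) = (N : ℝ) ^ (-(1 / 200) : ℝ) := by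
        rw [← hsN]
        field_simp
      rw [h2] at h1
      have h3 : 0 < 1 / (8 * (N * L ^ A)) := by positivity
      linarith
    · rw [if_neg hy, zero_add]
      push Not at hy
      have h1 : tr0 v (1 / (N : ℝ)) y = 0 := by
        apply (hTRB v (1 / (N : ℝ)) hδ).2.1
        refine le_trans ?_ hy.le
        exact div_le_div_of_nonneg_right (by norm_num) hN0.le
      have h2 := (hTRC v (1 / (N : ℝ)) s y hδ hs0).2.1 (1 / N) hδ (by
        refine le_trans (le_of_eq ?_) hy.le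
        ring)
      rw [hs4] at h2
      rw [h1, zero_sub, abs_neg]
      refine h2.trans ?_
      calc 2 * Real.exp (-((N : ℝ) ^ (1 / 100 : ℝ) / 4)) ≤ 2 * (1 / (N : ℝ) ^ 3) := by linarith
        _ ≤ 1 / (8 * (N * L ^ A)) := by
          rw [mul_one_div, div_le_div_iff₀ (by positivity) (by positivity)]
          have h3 : 16 * L ^ A ≤ N := by linarith
          have h4 : 2 * (8 * (N * L ^ A)) = (16 * L ^ A) * N := by ring
          rw [h4, one_mul]
          calc (16 * L ^ A) * N ≤ N * N := mul_le_mul_of_nonneg_right h3 hN0.le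
            _ ≤ (N : ℝ) ^ 3 := by
              have : (N : ℝ) ^ 3 = N * N * N := by ring
              rw [this]
              have h5 : 0 < (N : ℝ) * N := by positivity
              nlinarith
  have e : g0 B N v y - (trc v (1 / (N : ℝ)) s y - L ^ B / N * trc v (1 / L ^ B) s y) =
      (tr0 v (1 / (N : ℝ)) y - trc v (1 / (N : ℝ)) s y) -
        L ^ B / N * (tr0 v (1 / L ^ B) y - trc v (1 / L ^ B) s y) := by
    unfold g0
    ring
  rw [e]
  refine (abs_sub _ _).trans ?_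
  rw [abs_mul, abs_of_pos (by positivity : 0 < L ^ B / N)]
  have e8 : 1 / (4 * (N * L ^ A)) = 1 / (8 * (N * L ^ A)) + 1 / (8 * (N * L ^ A)) := by
    field_simp
    norm_num
  rw [e8]
  linarith

private lemma FGB_mb (hTHB : THB_stmt) (B N : ℕ) (hN : (2 : ℝ) ≤ N) (hL : 3 ≤ Real.log N)
    (hLB : Real.log N ^ B ≤ N) (s t : ℝ) :
    ‖FGB_m (1 / (N : ℝ)) (1 / Real.log N ^ B) (Real.log N ^ B / N) s t‖ ≤
      2 / N * Real.exp (-(s ^ 2 * t ^ 2 / 2)) ∧
    (t ≠ 0 → ‖FGB_m (1 / (N : ℝ)) (1 / Real.log N ^ B) (Real.log N ^ B / N) s t‖ ≤ 8 * N / t ^ 2) ∧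
    ‖FGB_m (1 / (N : ℝ)) (1 / Real.log N ^ B) (Real.log N ^ B / N) s t‖ ≤
      2 / (N * Real.log N ^ B) * |t| := by
  set L := Real.log N with hLd
  have hN0 : (0 : ℝ) < N := by linarith
  have hL0 : 0 < L := by linarith
  have hLB0 : 0 < L ^ B := by positivity
  have hδ : 0 < 1 / (N : ℝ) := by positivity
  have hδ' : 0 < 1 / L ^ B := by positivity
  obtain ⟨a1, a2, a3, _⟩ := hTHB (1 / (N : ℝ)) hδ
  obtain ⟨b1, b2, b3, _⟩ := hTHB (1 / L ^ B) hδ'
  have hnm : ‖FGB_m (1 / (N : ℝ)) (1 / L ^ B) (L ^ B / N) s t‖ =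
      Real.exp (-(s ^ 2 * t ^ 2 / 2)) *
        ‖Th (1 / (N : ℝ)) t - ((L ^ B / N : ℝ) : ℂ) * Th (1 / L ^ B) t‖ := by
    unfold FGB_m
    rw [norm_mul, Complex.norm_real, Real.norm_eq_abs, abs_of_pos (Real.exp_pos _)]
  have hc : ‖((L ^ B / N : ℝ) : ℂ)‖ = L ^ B / N := by
    rw [Complex.norm_real, Real.norm_eq_abs, abs_of_pos (by positivity)]
  have hexp : Real.exp (-(s ^ 2 * t ^ 2 / 2)) ≤ 1 := by
    rw [Real.exp_le_one_iff]
    have : 0 ≤ s ^ 2 * t ^ 2 / 2 := by positivity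
    linarith
  have hexp0 := Real.exp_pos (-(s ^ 2 * t ^ 2 / 2))
  have hb : ∀ R : ℝ, 0 ≤ R → ‖Th (1 / (N : ℝ)) t - ((L ^ B / N : ℝ) : ℂ) * Th (1 / L ^ B) t‖ ≤ R →
      ‖FGB_m (1 / (N : ℝ)) (1 / L ^ B) (L ^ B / N) s t‖ ≤ R := by
    intro R hR h
    rw [hnm]
    calc Real.exp (-(s ^ 2 * t ^ 2 / 2)) * _ ≤ 1 * R :=
          mul_le_mul hexp h (norm_nonneg _) (by norm_num)
      _ = R := one_mul R
  refine ⟨?_, ?_, ?_⟩
  · rw [hnm, mul_comm]
    apply mul_le_mul_of_nonneg_right _ hexp0.le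
    refine (norm_sub_le _ _).trans ?_
    rw [norm_mul, hc]
    calc ‖Th (1 / (N : ℝ)) t‖ + L ^ B / N * ‖Th (1 / L ^ B) t‖ ≤ 1 / N + L ^ B / N * (1 / L ^ B) :=
          add_le_add (a1 t) (mul_le_mul_of_nonneg_left (b1 t) (by positivity))
      _ = 2 / N := by field_simp; norm_num
  · intro ht
    have ht2 : 0 < t ^ 2 := by positivity
    apply hb _ (by positivity)
    refine (norm_sub_le _ _).trans ?_
    rw [norm_mul, hc]
    calc ‖Th (1 / (N : ℝ)) t‖ + L ^ B / N * ‖Th (1 / L ^ B) t‖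
        ≤ 4 / (1 / N * t ^ 2) + L ^ B / N * (4 / (1 / L ^ B * t ^ 2)) :=
          add_le_add (a2 t ht) (mul_le_mul_of_nonneg_left (b2 t ht) (by positivity))
      _ = 4 * N / t ^ 2 + 4 * (L ^ B * L ^ B / N) / t ^ 2 := by field_simp
      _ ≤ 4 * N / t ^ 2 + 4 * N / t ^ 2 := by
          have h1 : L ^ B * L ^ B / N ≤ N := by
            rw [div_le_iff₀ hN0]
            exact mul_le_mul hLB hLB hLB0.le hN0.le
          have h2 : 4 * (L ^ B * L ^ B / N) / t ^ 2 ≤ 4 * N / t ^ 2 :=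
            div_le_div_of_nonneg_right (by linarith) ht2.le
          linarith
      _ = 8 * N / t ^ 2 := by ring
  · apply hb _ (by positivity)
    have e : Th (1 / (N : ℝ)) t - ((L ^ B / N : ℝ) : ℂ) * Th (1 / L ^ B) t =
        (Th (1 / (N : ℝ)) t - ((1 / (N : ℝ) : ℝ) : ℂ)) -
          ((L ^ B / N : ℝ) : ℂ) * (Th (1 / L ^ B) t - ((1 / L ^ B : ℝ) : ℂ)) := by
      have h1 : ((L ^ B / N : ℝ) : ℂ) * ((1 / L ^ B : ℝ) : ℂ) = ((1 / (N : ℝ) : ℝ) : ℂ) := by
        rw [← Complex.ofReal_mul]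
        congr 1
        field_simp
      linear_combination (-1 : ℂ) * h1
    rw [e]
    refine (norm_sub_le _ _).trans ?_
    rw [norm_mul, hc]
    calc ‖Th (1 / (N : ℝ)) t - ((1 / (N : ℝ) : ℝ) : ℂ)‖ +
          L ^ B / N * ‖Th (1 / L ^ B) t - ((1 / L ^ B : ℝ) : ℂ)‖
        ≤ (1 / (N : ℝ)) ^ 2 * |t| + L ^ B / N * ((1 / L ^ B) ^ 2 * |t|) :=
          add_le_add (a3 t) (mul_le_mul_of_nonneg_left (b3 t) (by positivity))
      _ = (1 / ((N : ℝ) * N) + 1 / (N * L ^ B)) * |t| := by field_simp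
      _ ≤ (1 / (N * L ^ B) + 1 / (N * L ^ B)) * |t| := by
          apply mul_le_mul_of_nonneg_right _ (abs_nonneg t)
          have : 1 / ((N : ℝ) * N) ≤ 1 / (N * L ^ B) :=
            one_div_le_one_div_of_le (by positivity) (mul_le_mul_of_nonneg_left hLB hN0.le)
          linarith
      _ = 2 / (N * L ^ B) * |t| := by ring

/-- the pointwise bound of the integrand -/
private lemma FGB_pt (hTHB : THB_stmt) (B B₁ N : ℕ) (hN : (2 : ℝ) ≤ N) (hL : 3 ≤ Real.log N)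
    (hLB : Real.log N ^ B ≤ N) (h12 : 12 * Real.log N ≤ (N : ℝ) ^ (1 / 100 : ℝ)) (F : ℝ → ℝ) (Φ : ℝ)
    (hF0 : ∀ t, 0 ≤ F t) (hF : ∀ t, F t ≤ Φ) (t : ℝ) :
    1 / (2 * Real.pi) * (‖FGB_m (1 / (N : ℝ)) (1 / Real.log N ^ B) (Real.log N ^ B / N)
      ((N : ℝ) ^ (-(201 / 200) : ℝ)) t‖ * F t) ≤
    (Tset (1 / 200) B₁ N).indicator (fun t => 1 / (N : ℝ) * (F t * min 1 (8 * (N : ℝ) ^ 2 / t ^ 2))) t +
    (Set.Icc (-(Real.log N ^ B₁)) (Real.log N ^ B₁)).indicator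
      (fun _ => Φ * (Real.log N ^ B₁ / (N * Real.log N ^ B))) t +
    Φ * (1 / (N : ℝ) ^ 4) * Real.exp (-(((N : ℝ) ^ (-(201 / 200) : ℝ)) ^ 2 / 4) * t ^ 2) := by
  obtain ⟨hs0, hsN, hs1, hs2, hs3, hs4, hE⟩ := FGB_pow N hN h12
  obtain ⟨m1, m2, m3⟩ := FGB_mb hTHB B N hN hL hLB ((N : ℝ) ^ (-(201 / 200) : ℝ)) t
  set s := (N : ℝ) ^ (-(201 / 200) : ℝ) with hs
  set L := Real.log N with hLd
  set m := ‖FGB_m (1 / (N : ℝ)) (1 / L ^ B) (L ^ B / N) s t‖ with hm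
  have hm0 : 0 ≤ m := norm_nonneg _
  have hN0 : (0 : ℝ) < N := by linarith
  have hL0 : 0 < L := by linarith
  have hLB0 : 0 < L ^ B := by positivity
  have hΦ : 0 ≤ Φ := (hF0 t).trans (hF t)
  have hpi : 1 / (2 * Real.pi) ≤ 1 / 2 := by
    apply one_div_le_one_div_of_le (by norm_num)
    have := Real.pi_gt_three
    linarith
  have hpi0 : 0 ≤ 1 / (2 * Real.pi) := by positivity
  have hhalf : 1 / (2 * Real.pi) * (m * F t) ≤ 1 / 2 * (m * F t) :=
    mul_le_mul_of_nonneg_right hpi (mul_nonneg hm0 (hF0 t))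
  have hi1 : 0 ≤ (Tset (1 / 200) B₁ N).indicator
      (fun t => 1 / (N : ℝ) * (F t * min 1 (8 * (N : ℝ) ^ 2 / t ^ 2))) t := by
    apply Set.indicator_nonneg
    intro u _
    exact mul_nonneg (by positivity) (mul_nonneg (hF0 u) (le_min (by norm_num) (by positivity)))
  have hi2 : 0 ≤ (Set.Icc (-(L ^ B₁)) (L ^ B₁)).indicator (fun _ => Φ * (L ^ B₁ / (N * L ^ B))) t := by
    apply Set.indicator_nonneg
    intro u _
    positivity
  have hi3 : 0 ≤ Φ * (1 / (N : ℝ) ^ 4) * Real.exp (-(s ^ 2 / 4) * t ^ 2) := by positivity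
  by_cases hT : t ∈ Tset (1 / 200) B₁ N
  · rw [Set.indicator_of_mem hT] at hi1 ⊢
    have ht0 : t ≠ 0 := by
      intro h0
      have h1 := hT.1
      rw [h0, abs_zero] at h1
      have h2 : 0 < L ^ B₁ := by positivity
      linarith
    have e1 : 1 / 2 * (m * F t) ≤ 1 / (N : ℝ) * (F t * min 1 (8 * (N : ℝ) ^ 2 / t ^ 2)) := by
      have a1 : m / 2 ≤ 1 / N := by
        have h1 : m ≤ 2 / N * 1 := by
          refine m1.trans ?_
          apply mul_le_mul_of_nonneg_left _ (by positivity)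
          rw [Real.exp_le_one_iff]
          have : 0 ≤ s ^ 2 * t ^ 2 / 2 := by positivity
          linarith
        have h2 : 2 / (N : ℝ) * 1 = 2 * (1 / N) := by ring
        linarith
      have a2 : m / 2 ≤ 1 / N * (8 * (N : ℝ) ^ 2 / t ^ 2) := by
        have h1 := m2 ht0
        have h2 : 1 / (N : ℝ) * (8 * (N : ℝ) ^ 2 / t ^ 2) = 8 * N / t ^ 2 := by
          field_simp
        rw [h2]
        linarith
      have a3 : m / 2 ≤ 1 / N * min 1 (8 * (N : ℝ) ^ 2 / t ^ 2) := by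
        rw [mul_min_of_nonneg _ _ (by positivity : (0 : ℝ) ≤ 1 / N)]
        exact le_min (by linarith) a2
      calc 1 / 2 * (m * F t) = m / 2 * F t := by ring
        _ ≤ (1 / N * min 1 (8 * (N : ℝ) ^ 2 / t ^ 2)) * F t := mul_le_mul_of_nonneg_right a3 (hF0 t)
        _ = _ := by ring
    linarith
  · by_cases hI : |t| ≤ L ^ B₁
    · have hmem : t ∈ Set.Icc (-(L ^ B₁)) (L ^ B₁) := abs_le.1 hI
      rw [Set.indicator_of_mem hmem] at hi2 ⊢
      have e1 : 1 / 2 * (m * F t) ≤ Φ * (L ^ B₁ / (N * L ^ B)) := by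
        have h1 : m ≤ 2 / (N * L ^ B) * L ^ B₁ :=
          m3.trans (mul_le_mul_of_nonneg_left hI (by positivity))
        calc 1 / 2 * (m * F t) ≤ 1 / 2 * (2 / (N * L ^ B) * L ^ B₁ * Φ) := by
              apply mul_le_mul_of_nonneg_left _ (by norm_num)
              exact mul_le_mul h1 (hF t) (hF0 t) (by positivity)
          _ = Φ * (L ^ B₁ / (N * L ^ B)) := by ring
      linarith
    · push Not at hI
      have hbig : (N : ℝ) ^ (1 + 2 * (1 / 200) : ℝ) ≤ |t| := by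
        by_contra hc
        push Not at hc
        exact hT ⟨hI.le, hc.le⟩
      have hst : (N : ℝ) ^ (1 / 100 : ℝ) ≤ s ^ 2 * t ^ 2 := by
        rw [← hs3]
        apply mul_le_mul_of_nonneg_left _ (by positivity)
        rw [← sq_abs t]
        exact pow_le_pow_left₀ (by positivity) hbig 2
      have hexp : Real.exp (-(s ^ 2 * t ^ 2 / 2)) ≤
          1 / (N : ℝ) ^ 3 * Real.exp (-(s ^ 2 / 4) * t ^ 2) := by
        have h1 : -(s ^ 2 * t ^ 2 / 2) = -(s ^ 2 * t ^ 2 / 4) + (-(s ^ 2 / 4) * t ^ 2) := by ring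
        rw [h1, Real.exp_add]
        apply mul_le_mul_of_nonneg_right _ (Real.exp_pos _).le
        refine le_trans ?_ hE
        apply Real.exp_le_exp.2
        linarith
      have e1 : 1 / 2 * (m * F t) ≤ Φ * (1 / (N : ℝ) ^ 4) * Real.exp (-(s ^ 2 / 4) * t ^ 2) := by
        have h1 : m ≤ 2 / N * (1 / (N : ℝ) ^ 3 * Real.exp (-(s ^ 2 / 4) * t ^ 2)) :=
          m1.trans (mul_le_mul_of_nonneg_left hexp (by positivity))
        calc 1 / 2 * (m * F t) ≤
              1 / 2 * (2 / N * (1 / (N : ℝ) ^ 3 * Real.exp (-(s ^ 2 / 4) * t ^ 2)) * Φ) := by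
              apply mul_le_mul_of_nonneg_left _ (by norm_num)
              exact mul_le_mul h1 (hF t) (hF0 t) (by positivity)
          _ = Φ * (1 / (N : ℝ) ^ 4) * Real.exp (-(s ^ 2 / 4) * t ^ 2) := by
              field_simp
      linarith

private lemma FGB_meas (N B₁ : ℕ) : MeasurableSet (Tset (1 / 200) B₁ N) := by
  unfold Tset
  exact (measurableSet_le measurable_const continuous_abs.measurable).inter
    (measurableSet_le continuous_abs.measurable measurable_const)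

private lemma FGB_fin (N B₁ : ℕ) : volume (Tset (1 / 200) B₁ N) ≠ ⊤ := by
  have h : Tset (1 / 200) B₁ N ⊆
      Set.Icc (-((N : ℝ) ^ (1 + 2 * (1 / 200) : ℝ))) ((N : ℝ) ^ (1 + 2 * (1 / 200) : ℝ)) := by
    intro t ht
    exact abs_le.1 ht.2
  apply ne_top_of_le_ne_top _ (measure_mono h)
  rw [Real.volume_Icc]
  exact ENNReal.ofReal_ne_top

theorem FGB (h1 : TRB_stmt) (h2 : THB_stmt) (h3 : TRC_stmt) : FGB_stmt := by
  intro A B₁
  refine ⟨2 * B₁ + A + 2, fun B hB => ?_⟩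
  obtain ⟨N₀, hN₀⟩ := FGB_large (2 * B + A)
  refine ⟨N₀, ?_⟩
  intro N hNN v ι S x f _
  obtain ⟨hN, hL, h16, h12⟩ := hN₀ N hNN
  obtain ⟨hs0, hsN, hs1, hs2, hs3, hs4, hE⟩ := FGB_pow N hN h12
  have herr := FGB_err h1 h3 A B N hN hL h16 h12 v
  have hN0 : (0 : ℝ) < N := by linarith
  have hL1 : 1 ≤ Real.log N := by linarith
  have hL0 : 0 < Real.log N := by linarith
  have hLB : Real.log N ^ B ≤ N := by
    have e1 : Real.log N ^ B ≤ Real.log N ^ (2 * B + A) := pow_le_pow_right₀ hL1 (by omega)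
    have e2 : 0 < Real.log N ^ (2 * B + A) := by positivity
    linarith
  set Φ := ∑ w ∈ S, ‖f w‖ with hΦ
  have hΦ0 : 0 ≤ Φ := Finset.sum_nonneg fun w _ => norm_nonneg _
  set F : ℝ → ℝ := fun t => ‖∑ w ∈ S, f w * nit t (x w : ℝ)‖ with hFdef
  have hF0 : ∀ t, 0 ≤ F t := fun t => norm_nonneg _
  have hF : ∀ t, F t ≤ Φ := by
    intro t
    refine (norm_sum_le _ _).trans (le_of_eq ?_)
    refine Finset.sum_congr rfl fun w _ => ?_
    rw [norm_mul]
    unfold nit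
    rw [Complex.norm_exp_ofReal_mul_I, mul_one]
  have hFc : Continuous F := by
    apply Continuous.norm
    apply continuous_finset_sum
    intro w _
    unfold nit
    fun_prop
  have hpt := FGB_pt h2 B B₁ N hN hL hLB h12 F Φ hF0 hF
  have hδ : 0 < 1 / (N : ℝ) := by positivity
  have hδ' : 0 < 1 / Real.log N ^ B := by positivity
  have hnorm := FGB_norm h2 h3 v (1 / (N : ℝ)) (1 / Real.log N ^ B) (Real.log N ^ B / N)
    ((N : ℝ) ^ (-(201 / 200) : ℝ)) hδ hδ' hs0 ι S x f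
  set s := (N : ℝ) ^ (-(201 / 200) : ℝ) with hs
  set L := Real.log N with hLd
  set gs : ℝ → ℝ := fun y => trc v (1 / (N : ℝ)) s y - L ^ B / N * trc v (1 / L ^ B) s y with hgs
  have hLA0 : 0 < L ^ A := by positivity
  -- step 1: smoothing
  have st1 : ‖∑ w ∈ S, f w * gj B N v (x w)‖ ≤
      ‖∑ w ∈ S, f w * ((gs (Real.log (x w)) : ℝ) : ℂ)‖ +
      ((N : ℝ) ^ (-(1 / 200) : ℝ) * (∑ w ∈ S with |Real.log (x w : ℝ) - v| ≤ 2 / N, ‖f w‖) +
        Φ / (4 * (N * L ^ A))) := by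
    have e1 : ∑ w ∈ S, f w * gj B N v (x w) = ∑ w ∈ S, f w * ((gs (Real.log (x w)) : ℝ) : ℂ) +
        ∑ w ∈ S, f w * ((g0 B N v (Real.log (x w)) - gs (Real.log (x w)) : ℝ) : ℂ) := by
      rw [← Finset.sum_add_distrib]
      refine Finset.sum_congr rfl fun w _ => ?_
      unfold gj
      push_cast
      ring
    rw [e1]
    refine (norm_add_le _ _).trans ?_
    apply add_le_add (le_refl _)
    refine (norm_sum_le _ _).trans ?_
    rw [Finset.sum_filter, Finset.mul_sum, hΦ, Finset.sum_div, ← Finset.sum_add_distrib]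
    refine Finset.sum_le_sum fun w _ => ?_
    rw [norm_mul, Complex.norm_real, Real.norm_eq_abs]
    refine (mul_le_mul_of_nonneg_left (herr (Real.log (x w))) (norm_nonneg _)).trans (le_of_eq ?_)
    split_ifs
    · ring
    · ring
  -- step 2: the integral
  have hmeas := FGB_meas N B₁
  have i1 : Integrable ((Tset (1 / 200) B₁ N).indicator
      (fun t => 1 / (N : ℝ) * (F t * min 1 (8 * (N : ℝ) ^ 2 / t ^ 2)))) := by
    rw [integrable_indicator_iff hmeas]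
    apply Measure.integrableOn_of_bounded (M := 1 / (N : ℝ) * Φ) (FGB_fin N B₁)
    · apply Measurable.aestronglyMeasurable
      apply Measurable.const_mul
      apply hFc.measurable.mul
      apply Measurable.min measurable_const
      fun_prop
    · refine Filter.Eventually.of_forall fun t => ?_
      have a0 : (0 : ℝ) ≤ min 1 (8 * (N : ℝ) ^ 2 / t ^ 2) := le_min (by norm_num) (by positivity)
      rw [Real.norm_eq_abs, abs_of_nonneg (mul_nonneg hδ.le (mul_nonneg (hF0 t) a0))]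
      apply mul_le_mul_of_nonneg_left _ hδ.le
      calc F t * min 1 (8 * (N : ℝ) ^ 2 / t ^ 2) ≤ F t * 1 :=
            mul_le_mul_of_nonneg_left (min_le_left _ _) (hF0 t)
        _ ≤ Φ := by rw [mul_one]; exact hF t
  have i2 : Integrable ((Set.Icc (-(L ^ B₁)) (L ^ B₁)).indicator
      (fun _ => Φ * (L ^ B₁ / (N * L ^ B)))) := by
    rw [integrable_indicator_iff measurableSet_Icc]
    exact integrableOn_const (by rw [Real.volume_Icc]; exact ENNReal.ofReal_ne_top)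
  have i3 : Integrable fun t : ℝ => Φ * (1 / (N : ℝ) ^ 4) * Real.exp (-(s ^ 2 / 4) * t ^ 2) :=
    (integrable_exp_neg_mul_sq (by positivity)).const_mul _
  have st2 : 1 / (2 * Real.pi) * ∫ t : ℝ, ‖FGB_m (1 / (N : ℝ)) (1 / L ^ B) (L ^ B / N) s t‖ * F t ≤
      1 / (N : ℝ) * (∫ t in Tset (1 / 200) B₁ N, F t * min 1 (8 * (N : ℝ) ^ 2 / t ^ 2)) +
      2 * L ^ B₁ * (Φ * (L ^ B₁ / (N * L ^ B))) +
      Φ * (1 / (N : ℝ) ^ 4) * √(Real.pi / (s ^ 2 / 4)) := by
    rw [← integral_const_mul]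
    have h := integral_mono_of_nonneg (μ := volume)
      (f := fun t : ℝ => 1 / (2 * Real.pi) *
        (‖FGB_m (1 / (N : ℝ)) (1 / L ^ B) (L ^ B / N) s t‖ * F t))
      (Filter.Eventually.of_forall fun t => by
        have := hF0 t
        have := norm_nonneg (FGB_m (1 / (N : ℝ)) (1 / L ^ B) (L ^ B / N) s t)
        show (0 : ℝ) ≤ _
        positivity) ((i1.add i2).add i3) (Filter.Eventually.of_forall hpt)
    let G1 : ℝ → ℝ := (Tset (1 / 200) B₁ N).indicator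
      (fun t => 1 / (N : ℝ) * (F t * min 1 (8 * (N : ℝ) ^ 2 / t ^ 2)))
    let G2 : ℝ → ℝ := (Set.Icc (-(L ^ B₁)) (L ^ B₁)).indicator (fun _ => Φ * (L ^ B₁ / (N * L ^ B)))
    let G3 : ℝ → ℝ := fun t => Φ * (1 / (N : ℝ) ^ 4) * Real.exp (-(s ^ 2 / 4) * t ^ 2)
    have e1 : ∫ t : ℝ, (G1 + G2 + G3) t = (∫ t : ℝ, G1 t) + (∫ t : ℝ, G2 t) + ∫ t : ℝ, G3 t := by
      rw [integral_add' (i1.add i2) i3, integral_add' i1 i2]
    have e2 : (volume : Measure ℝ).real (Set.Icc (-(L ^ B₁)) (L ^ B₁)) = 2 * L ^ B₁ := by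
      rw [Measure.real, Real.volume_Icc, ENNReal.toReal_ofReal]
      · ring
      · have : 0 ≤ L ^ B₁ := by positivity
        linarith
    have t1 : ∫ t : ℝ, G1 t = 1 / (N : ℝ) *
        (∫ t in Tset (1 / 200) B₁ N, F t * min 1 (8 * (N : ℝ) ^ 2 / t ^ 2)) := by
      show ∫ t : ℝ, (Tset (1 / 200) B₁ N).indicator
        (fun t => 1 / (N : ℝ) * (F t * min 1 (8 * (N : ℝ) ^ 2 / t ^ 2))) t = _
      rw [integral_indicator hmeas, integral_const_mul]
    have t2 : ∫ t : ℝ, G2 t = 2 * L ^ B₁ * (Φ * (L ^ B₁ / (N * L ^ B))) := by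
      show ∫ t : ℝ, (Set.Icc (-(L ^ B₁)) (L ^ B₁)).indicator
          (fun _ => Φ * (L ^ B₁ / (N * L ^ B))) t = _
      rw [integral_indicator measurableSet_Icc, setIntegral_const, smul_eq_mul, e2]
    have t3 : ∫ t : ℝ, G3 t = Φ * (1 / (N : ℝ) ^ 4) * √(Real.pi / (s ^ 2 / 4)) := by
      show ∫ t : ℝ, Φ * (1 / (N : ℝ) ^ 4) * Real.exp (-(s ^ 2 / 4) * t ^ 2) = _
      rw [integral_const_mul, integral_gaussian]
    refine h.trans (le_of_eq (e1.trans ?_))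
    rw [t1, t2, t3]
  -- numerical bounds
  have n1 : 2 * L ^ B₁ * (Φ * (L ^ B₁ / (N * L ^ B))) ≤ Φ / (4 * (N * L ^ A)) := by
    have a1 : L ^ (2 * B₁ + A + 2) ≤ L ^ B := pow_le_pow_right₀ hL1 hB
    have a2 : 8 ≤ L ^ 2 := by nlinarith
    have a3 : 2 * L ^ B₁ * (L ^ B₁ / (N * L ^ B)) ≤ 1 / (4 * (N * L ^ A)) := by
      rw [← mul_div_assoc, div_le_div_iff₀ (by positivity) (by positivity)]
      calc 2 * L ^ B₁ * L ^ B₁ * (4 * (N * L ^ A)) = N * (8 * L ^ (2 * B₁ + A)) := by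
            rw [pow_add, two_mul B₁, pow_add]; ring
        _ ≤ N * (L ^ 2 * L ^ (2 * B₁ + A)) := by
            apply mul_le_mul_of_nonneg_left _ hN0.le
            exact mul_le_mul_of_nonneg_right a2 (by positivity)
        _ = N * L ^ (2 * B₁ + A + 2) := by rw [pow_add L (2 * B₁ + A) 2]; ring
        _ ≤ N * L ^ B := mul_le_mul_of_nonneg_left a1 hN0.le
        _ = 1 * (N * L ^ B) := by ring
    calc 2 * L ^ B₁ * (Φ * (L ^ B₁ / (N * L ^ B))) = Φ * (2 * L ^ B₁ * (L ^ B₁ / (N * L ^ B))) := by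
          ring
      _ ≤ Φ * (1 / (4 * (N * L ^ A))) := mul_le_mul_of_nonneg_left a3 hΦ0
      _ = Φ / (4 * (N * L ^ A)) := by ring
  have n2 : Φ * (1 / (N : ℝ) ^ 4) * √(Real.pi / (s ^ 2 / 4)) ≤ Φ / (4 * (N * L ^ A)) := by
    have a1 : √(Real.pi / (s ^ 2 / 4)) ≤ 4 * (N : ℝ) ^ 2 := by
      have b1 : Real.pi / (s ^ 2 / 4) ≤ (4 * (1 / s)) ^ 2 := by
        have b2 : Real.pi / (s ^ 2 / 4) = 4 * Real.pi * (1 / s) ^ 2 := by field_simp
        rw [b2, mul_pow]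
        apply mul_le_mul_of_nonneg_right _ (by positivity)
        have := Real.pi_le_four
        linarith
      calc √(Real.pi / (s ^ 2 / 4)) ≤ √((4 * (1 / s)) ^ 2) := Real.sqrt_le_sqrt b1
        _ = 4 * (1 / s) := Real.sqrt_sq (by positivity)
        _ ≤ 4 * (N : ℝ) ^ 2 := by linarith
    have a2 : 1 / (N : ℝ) ^ 4 * (4 * (N : ℝ) ^ 2) ≤ 1 / (4 * (N * L ^ A)) := by
      have b0 : 1 / (N : ℝ) ^ 4 * (4 * (N : ℝ) ^ 2) = 4 / (N : ℝ) ^ 2 := by field_simp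
      rw [b0, div_le_div_iff₀ (by positivity) (by positivity)]
      have b1 : L ^ A ≤ L ^ (2 * B + A) := pow_le_pow_right₀ hL1 (by omega)
      have b2 : 16 * L ^ A ≤ N := by linarith
      calc 4 * (4 * (N * L ^ A)) = N * (16 * L ^ A) := by ring
        _ ≤ N * N := mul_le_mul_of_nonneg_left b2 hN0.le
        _ = 1 * (N : ℝ) ^ 2 := by ring
    calc Φ * (1 / (N : ℝ) ^ 4) * √(Real.pi / (s ^ 2 / 4)) ≤
          Φ * (1 / (N : ℝ) ^ 4) * (4 * (N : ℝ) ^ 2) :=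
          mul_le_mul_of_nonneg_left a1 (by positivity)
      _ = Φ * (1 / (N : ℝ) ^ 4 * (4 * (N : ℝ) ^ 2)) := by ring
      _ ≤ Φ * (1 / (4 * (N * L ^ A))) := mul_le_mul_of_nonneg_left a2 hΦ0
      _ = Φ / (4 * (N * L ^ A)) := by ring
  have n3 : Φ / (4 * (N * L ^ A)) + Φ / (4 * (N * L ^ A)) + Φ / (4 * (N * L ^ A)) ≤
      Φ / (N * L ^ A) := by
    have e1 : Φ / (4 * (N * L ^ A)) = Φ / (N * L ^ A) / 4 := by
      rw [div_div]
      congr 1
      ring
    have e2 : 0 ≤ Φ / (N * L ^ A) := by positivity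
    rw [e1]
    linarith
  have hnorm' : ‖∑ w ∈ S, f w * ((gs (Real.log (x w)) : ℝ) : ℂ)‖ ≤
      1 / (2 * Real.pi) * ∫ t : ℝ, ‖FGB_m (1 / (N : ℝ)) (1 / L ^ B) (L ^ B / N) s t‖ * F t := hnorm
  linarith

end Pool.Agent.SK
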